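import Pool.Agent.Helper28_TP.DyS

/-!
# Module GLP: one of many disjoint boxes is full
-/

set_option autoImplicit false

namespace Pool.Agent.TP.H70

open Pool.Agent.TP

/-- Probability that a set is contained in the random set. -/
theorem PS_full {α : Type} [DecidableEq α] {V W : Finset α} (h : W ⊆ V) (q : α → ℝ) :
    PS V q (fun A => W ⊆ A) = ∏ a ∈ W, q a := by
  have h1 : PS V q (fun A => W ⊆ A) = PS W q (fun A => W ⊆ A) :=
    PS_marg h q fun A _ => by
      constructor
      · intro h2 a ha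
        exact Finset.mem_inter.2 ⟨h2 ha, ha⟩
      · intro h2 a ha
        exact (Finset.mem_inter.1 (h2 ha)).1
  rw [h1]
  classical
  rw [PS_def]
  unfold EX
  rw [Finset.sum_eq_single W]
  · show wt W q W * (if W ⊆ W then (1 : ℝ) else 0) = _
    rw [if_pos (Finset.Subset.refl W), mul_one]
    exact Finset.prod_congr rfl fun a ha => by rw [if_pos ha]
  · intro A hA hne
    have hA' := Finset.mem_powerset.1 hA
    show wt W q A * (if W ⊆ A then (1 : ℝ) else 0) = 0
    rw [if_neg, mul_zero]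
    intro h2
    exact hne (Finset.Subset.antisymm hA' h2)
  · intro h2
    exact absurd (Finset.mem_powerset.2 (Finset.Subset.refl W)) h2

theorem card_bx (k : ℕ) (b : Pt k) (n : ℕ) : (bx b n).card = (2 * n + 1) ^ (k + 2) := by
  unfold bx
  rw [Pi.card_Icc]
  have : ∀ i : Fin (k + 2), (Finset.Icc (b i - n) (b i + n)).card = 2 * n + 1 := by
    intro i
    rw [Int.card_Icc]
    omega
  simp [this]

theorem disj {k D B : ℕ} (hD : 2 * B < D) {z z' : ℤ × ℤ} (hz : z ≠ z') :
    Disjoint (bx (cen k D z) B) (bx (cen k D z') B) := by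
  rw [Finset.disjoint_left]
  intro x hx hx'
  rw [mem_bx] at hx hx'
  apply hz
  have key : ∀ a b t : ℤ, |t - D * a| ≤ B → |t - D * b| ≤ B → a = b := by
    intro a b t h1 h2
    rw [abs_le] at h1 h2
    by_contra hne
    rcases lt_or_gt_of_ne hne with hlt | hlt
    · have h3 : (D : ℤ) * (a + 1) ≤ D * b := mul_le_mul_of_nonneg_left (by omega) (by omega)
      have h4 : (2 * B : ℤ) < D := by exact_mod_cast hD
      nlinarith
    · have h3 : (D : ℤ) * (b + 1) ≤ D * a := mul_le_mul_of_nonneg_left (by omega) (by omega)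
      have h4 : (2 * B : ℤ) < D := by exact_mod_cast hD
      nlinarith
  have e0 : ∀ y : ℤ × ℤ, cen k D y 0 = D * y.1 := fun y => by simp [cen]
  have e1 : ∀ y : ℤ × ℤ, cen k D y 1 = D * y.2 := fun y => by simp [cen]
  have a0 := hx 0
  have a1 := hx 1
  have b0 := hx' 0
  have b1 := hx' 1
  rw [e0] at a0 b0
  rw [e1] at a1 b1
  exact Prod.ext (key _ _ _ a0 b0) (key _ _ _ a1 b1)

theorem glp : GlpStmt := by
  intro k D B R p hD hp0 hp1 Z
  have hU : U01 (bx (0 : Pt k) R) (fun _ => p) := fun _ _ => ⟨hp0.le, hp1.le⟩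
  induction Z using Finset.induction_on with
  | empty =>
    intro _
    simp only [Finset.notMem_empty, false_and, exists_false, not_false_eq_true,
      Finset.card_empty, pow_zero]
    exact (PS_true _ _).le
  | insert a Z ha ih =>
    intro hZ
    have hZ' : ∀ z ∈ Z, bx (cen k D z) B ⊆ bx 0 R := fun z hz =>
      hZ z (Finset.mem_insert_of_mem hz)
    have ha' : bx (cen k D a) B ⊆ bx 0 R := hZ a (Finset.mem_insert_self a Z)
    have ih' := ih hZ'
    rw [Finset.card_insert_of_notMem ha, pow_succ']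
    have h1 : PS (bx (0 : Pt k) R) (fun _ => p)
        (fun O => ¬ ∃ z ∈ insert a Z, bx (cen k D z) B ⊆ O) =
        PS (bx (0 : Pt k) R) (fun _ => p)
          (fun O => ¬ (bx (cen k D a) B ⊆ O) ∧ ¬ ∃ z ∈ Z, bx (cen k D z) B ⊆ O) := by
      refine PS_congr (fun _ _ => rfl) fun O _ => ?_
      rw [Finset.exists_mem_insert, not_or]
    rw [h1]
    rw [PS_indep (V := bx (cen k D a) B) (V' := Z.biUnion (fun z => bx (cen k D z) B))
      (bx (0 : Pt k) R) ha' (Finset.biUnion_subset.2 hZ')
      ((Finset.disjoint_biUnion_right _ _ _).2 fun z hz => disj hD fun h => ha (h ▸ hz))]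
    · rw [PS_not, PS_full ha', Finset.prod_const, card_bx]
      refine mul_le_mul_of_nonneg_left ih' ?_
      have : p ^ (2 * B + 1) ^ (k + 2) ≤ 1 := pow_le_one₀ hp0.le hp1.le
      linarith
    · intro A _
      refine not_congr ⟨fun h x hx => Finset.mem_inter.2 ⟨h hx, hx⟩,
        fun h x hx => (Finset.mem_inter.1 (h hx)).1⟩
    · intro A _
      refine not_congr ⟨?_, ?_⟩
      · rintro ⟨z, hz, h⟩
        exact ⟨z, hz, fun x hx => Finset.mem_inter.2 ⟨h hx, Finset.mem_biUnion.2 ⟨z, hz, hx⟩⟩⟩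
      · rintro ⟨z, hz, h⟩
        exact ⟨z, hz, fun x hx => (Finset.mem_inter.1 (h hx)).1⟩

end Pool.Agent.TP.H70
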