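import Pool.Agent.Helper28_TP.DyS

/-!
# Module CONT: infinite clusters of occupied cells give infinite components
-/

set_option autoImplicit false

namespace Pool.Agent.TP.H70

open Pool.Agent.TP

/-- Cells are disjoint. -/
theorem cel_inj {k : ℕ} {h : ℝ} (hh : 0 < h) {w x : Sp k} {c c' : Pt k} (hx : x ∈ cel h w c)
    (hx' : x ∈ cel h w c') : c = c' := by
  funext a
  have h1 := hx a
  have h2 := hx' a
  by_contra hne
  rcases lt_or_gt_of_ne hne with hlt | hlt
  · have h3 : ((c a : ℤ) : ℝ) + 1 ≤ (c' a : ℝ) := by exact_mod_cast hlt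
    nlinarith [h1.1, h1.2, h2.1, h2.2]
  · have h3 : ((c' a : ℤ) : ℝ) + 1 ≤ (c a : ℝ) := by exact_mod_cast hlt
    nlinarith [h1.1, h1.2, h2.1, h2.2]

theorem near_of {k : ℕ} {r h : ℝ} (hh : 0 < h) {w x y : Sp k} {c c' : Pt k}
    (hx : x ∈ cel h w c) (hy : y ∈ cel h w c') (hN : c' - c ∈ Nb k r h) : near r x y := by
  have h1 : ∑ a, ((|(c' - c) a| + 1 : ℤ) * h) ^ 2 ≤ r ^ 2 := by
    unfold Nb at hN
    exact (Finset.mem_filter.1 hN).2
  unfold near
  refine le_trans (Finset.sum_le_sum fun a _ => ?_) h1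
  have hx1 := hx a
  have hy1 := hy a
  have e : (((|(c' - c) a| + 1 : ℤ)) : ℝ) = |(c' a : ℝ) - c a| + 1 := by
    rw [Pi.sub_apply]
    push_cast
    rfl
  rw [e, ← sq_abs (x a - y a)]
  have h2 : |x a - y a| ≤ (|(c' a : ℝ) - c a| + 1) * h := by
    have h3 := abs_nonneg ((c' a : ℝ) - c a)
    have h4 : h * ((c' a : ℝ) - c a) ≤ h * |(c' a : ℝ) - c a| :=
      mul_le_mul_of_nonneg_left (le_abs_self _) hh.le
    have h5 : h * (-((c' a : ℝ) - c a)) ≤ h * |(c' a : ℝ) - c a| :=
      mul_le_mul_of_nonneg_left (neg_le_abs _) hh.le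
    rw [abs_le]
    constructor
    · nlinarith [hx1.1, hx1.2, hy1.1, hy1.2]
    · nlinarith [hx1.1, hx1.2, hy1.1, hy1.2]
  exact pow_le_pow_left₀ (abs_nonneg _) h2 2

theorem cont : ContStmt := by
  intro k r h ω w i hr hh hinf
  have key : ∀ c : Pt k, Conn (Nb k r h) (occ h w i ω) 0 c →
      ∃ u : Option (Pt k × ℕ), (∀ v ∈ u, alive ω v) ∧ u.elim w (pos ω i) ∈ cel h w c ∧
        (graphWith r ω w i).Reachable none u := by
    intro c hc
    induction hc with
    | refl =>
      refine ⟨none, by simp, ?_, SimpleGraph.Reachable.refl _⟩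
      intro a
      simp [cel, cube, hh]
    | tail _ hstep ih =>
      obtain ⟨u, hu1, hu2, hu3⟩ := ih
      obtain ⟨hN, v, hv1, hv2⟩ := hstep
      refine ⟨some v, ?_, hv2, ?_⟩
      · intro v' hv'
        rw [Option.mem_some_iff] at hv'
        exact hv' ▸ hv1
      · by_cases he : u = some v
        · exact he ▸ hu3
        · refine hu3.trans (SimpleGraph.Adj.reachable ?_)
          unfold graphWith geo
          rw [SimpleGraph.fromRel_adj]
          refine ⟨he, Or.inl ⟨hu1, ?_, near_of hh hu2 hv2 hN⟩⟩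
          intro v' hv'
          rw [Option.mem_some_iff] at hv'
          exact hv' ▸ hv1
  choose! f hf1 hf2 hf3 using key
  refine Set.infinite_of_injOn_mapsTo (f := f) (s := {x | Conn (Nb k r h) (occ h w i ω) 0 x}) ?_ ?_ hinf
  · intro c hc c' hc' he
    have h1 := hf2 c hc
    have h2 := hf2 c' hc'
    rw [← he] at h2
    exact cel_inj hh h1 h2
  · intro c hc
    exact hf3 c hc

end Pool.Agent.TP.H70
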